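import Pool.Agent.helper16.LW.Spec
import Pool.Agent.helper86.ZD.SpecC

/-!
# Project lw (MP_4467b5_nt), module FIN

The large values theorem for points of `[T₀, T₀ + T]`.
-/

set_option autoImplicit false

open Complex MeasureTheory

namespace Pool.Agent.LW

open Pool.Agent.ZD Pool.Agent.helper84.DM Pool.Agent.helper78.ED Pool.Agent.DH

/-- Shift of the points. -/
theorem FIN_shift (N : ℕ) (a : ℕ → ℂ) (s u : ℝ) :
    DP N (fun n => a n * (n : ℂ) ^ (-((s : ℂ) * I))) (u - s)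
      = ∑ n ∈ Finset.Ioc N (2 * N), a n * (n : ℂ) ^ (-((u : ℂ) * I)) := by
  unfold DP
  refine Finset.sum_congr rfl fun n hn => ?_
  have hn0 : (n : ℂ) ≠ 0 := by
    have : 0 < n := by have := (Finset.mem_Ioc.1 hn).1; omega
    exact_mod_cast this.ne'
  rw [mul_assoc, ← Complex.cpow_add _ _ hn0]
  congr 2
  push_cast
  ring

/-- The shifted coefficients have the same norm. -/
theorem FIN_norm (N : ℕ) (a : ℕ → ℂ) (s : ℝ) (n : ℕ) (hn : n ∈ Finset.Ioc N (2 * N)) :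
    ‖a n * (n : ℂ) ^ (-((s : ℂ) * I))‖ = ‖a n‖ := by
  have hn0 : 0 < n := by have := (Finset.mem_Ioc.1 hn).1; omega
  rw [norm_mul, Complex.norm_natCast_cpow_of_pos hn0]
  simp

theorem FIN_real (T : ℝ) (N : ℕ) (hT : 1 ≤ T)
    (h : (N : ℝ) < ((⌈6 * (T + 1)⌉₊ : ℕ) : ℝ) ^ (3 / 5 : ℝ)) :
    (T + (N : ℝ) ^ 2) * (N : ℝ) ^ 2 ≤ 13 * (T ^ (1 / 2 : ℝ) * (N : ℝ) ^ 3 +
      T ^ (6 / 7 : ℝ) * (N : ℝ) ^ (18 / 7 : ℝ) + T * (N : ℝ) ^ 2) := by
  have hT0 : 0 < T := by linarith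
  have hN0 : (0 : ℝ) ≤ N := Nat.cast_nonneg N
  have h1 : ((⌈6 * (T + 1)⌉₊ : ℕ) : ℝ) ≤ 13 * T := by
    have := Nat.ceil_lt_add_one (show 0 ≤ 6 * (T + 1) by linarith)
    linarith
  have h2 : (N : ℝ) ≤ (13 * T) ^ (3 / 5 : ℝ) :=
    h.le.trans (Real.rpow_le_rpow (Nat.cast_nonneg _) h1 (by norm_num))
  have h3 : (N : ℝ) ^ (10 / 7 : ℝ) ≤ 13 * T ^ (6 / 7 : ℝ) := by
    calc (N : ℝ) ^ (10 / 7 : ℝ) ≤ ((13 * T) ^ (3 / 5 : ℝ)) ^ (10 / 7 : ℝ) :=
          Real.rpow_le_rpow hN0 h2 (by norm_num)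
      _ = (13 * T) ^ (6 / 7 : ℝ) := by
          rw [← Real.rpow_mul (by positivity)]
          norm_num
      _ = (13 : ℝ) ^ (6 / 7 : ℝ) * T ^ (6 / 7 : ℝ) := Real.mul_rpow (by norm_num) hT0.le
      _ ≤ 13 * T ^ (6 / 7 : ℝ) := by
          refine mul_le_mul_of_nonneg_right ?_ (by positivity)
          calc (13 : ℝ) ^ (6 / 7 : ℝ) ≤ (13 : ℝ) ^ (1 : ℝ) :=
                Real.rpow_le_rpow_of_exponent_le (by norm_num) (by norm_num)
            _ = 13 := Real.rpow_one _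
  have h4 : (N : ℝ) ^ 4 ≤ 13 * (T ^ (6 / 7 : ℝ) * (N : ℝ) ^ (18 / 7 : ℝ)) := by
    have h5 : (N : ℝ) ^ 4 = (N : ℝ) ^ (10 / 7 : ℝ) * (N : ℝ) ^ (18 / 7 : ℝ) := by
      rw [← Real.rpow_add_of_nonneg hN0 (by norm_num) (by norm_num), ← Real.rpow_natCast]
      norm_num
    rw [h5, ← mul_assoc]
    exact mul_le_mul_of_nonneg_right h3 (by positivity)
  have h6 : 0 ≤ T ^ (1 / 2 : ℝ) * (N : ℝ) ^ 3 := by positivity
  have h7 : 0 ≤ T * (N : ℝ) ^ 2 := by positivity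
  nlinarith

theorem FIN (hWTG : WTG_stmt) (hMVK : MVK_stmt) : FIN_stmt := by
  intro ε hε
  obtain ⟨C₁, hC₁, h₁⟩ := hWTG ε hε
  obtain ⟨C₂, hC₂, h₂⟩ := hMVK ε 2 hε (by norm_num)
  refine ⟨C₁ + 13 * C₂, by positivity, ?_⟩
  intro T T₀ N a V W hT hN hNT hV ha hW hsep hlarge
  have hT0 : 0 < T := by linarith
  have hN0 : (0 : ℝ) ≤ N := Nat.cast_nonneg N
  set Q : ℝ := T ^ (1 / 2 : ℝ) * (N : ℝ) ^ 3 + T ^ (6 / 7 : ℝ) * (N : ℝ) ^ (18 / 7 : ℝ)
    + T * (N : ℝ) ^ 2 with hQ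
  have hQ0 : 0 ≤ Q := by positivity
  have hTe : 0 < T ^ ε := Real.rpow_pos_of_pos hT0 ε
  by_cases hc : ((⌈6 * (T + 1)⌉₊ : ℕ) : ℝ) ^ (3 / 5 : ℝ) ≤ N
  · have hinj : Function.Injective (fun t : ℝ => t - T₀) := sub_left_injective
    have h3 := h₁ T N (fun n => a n * (n : ℂ) ^ (-((T₀ : ℂ) * I))) V
      (W.image (fun t => t - T₀)) hT hN hNT hc hV ?_ ?_ ?_
    · rw [Finset.card_image_of_injective _ hinj] at h3
      refine h3.trans ?_
      have h4 : BB T N ≤ Q := by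
        unfold BB
        rw [hQ]
        have : 0 ≤ T * (N : ℝ) ^ 2 := by positivity
        linarith
      have h5 : BB T N / V ^ 4 ≤ Q / V ^ 4 := div_le_div_of_nonneg_right h4 (by positivity)
      have h6 : 0 ≤ (N : ℝ) ^ 2 / V ^ 2 := by positivity
      have h7 : 0 ≤ Q / V ^ 4 := by positivity
      have h8 : C₁ * T ^ ε ≤ (C₁ + 13 * C₂) * T ^ ε :=
        mul_le_mul_of_nonneg_right (by linarith) hTe.le
      calc C₁ * T ^ ε * ((N : ℝ) ^ 2 / V ^ 2 + BB T N / V ^ 4)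
          ≤ C₁ * T ^ ε * ((N : ℝ) ^ 2 / V ^ 2 + Q / V ^ 4) :=
            mul_le_mul_of_nonneg_left (by linarith) (by positivity)
        _ ≤ (C₁ + 13 * C₂) * T ^ ε * ((N : ℝ) ^ 2 / V ^ 2 + Q / V ^ 4) :=
            mul_le_mul_of_nonneg_right h8 (by positivity)
    · constructor
      · intro t ht
        obtain ⟨s, hs, rfl⟩ := Finset.mem_image.1 ht
        have := hW s hs
        constructor <;> linarith
      · intro t ht t' ht' hne
        obtain ⟨s, hs, rfl⟩ := Finset.mem_image.1 ht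
        obtain ⟨s', hs', rfl⟩ := Finset.mem_image.1 ht'
        have h4 := hsep s hs s' hs' (fun h => hne (by rw [h]))
        have h5 : s - T₀ - (s' - T₀) = s - s' := by ring
        rw [h5]
        exact h4
    · intro n hn
      rw [FIN_norm N a T₀ n hn]
      exact ha n hn
    · intro t ht
      obtain ⟨s, hs, rfl⟩ := Finset.mem_image.1 ht
      rw [FIN_shift]
      exact hlarge s hs
  · have hc' := not_le.1 hc
    have hinj : Function.Injective (fun t : ℝ => t - (T₀ - T)) := sub_left_injective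
    have h3 := h₂ T hT (W.image (fun t => t - (T₀ - T))) ?_ N
      (fun n => a n * (n : ℂ) ^ (-(((T₀ - T : ℝ) : ℂ) * I))) 1 V hN hNT hV.le ?_ ?_
    · rw [Finset.card_image_of_injective _ hinj] at h3
      have h4 := FIN_real T N hT hc'
      rw [← hQ] at h4
      have h5 : (W.card : ℝ) * V ^ 4 ≤ 13 * C₂ * T ^ ε * Q := by
        calc (W.card : ℝ) * V ^ 4 ≤ C₂ * 1 ^ (2 * 2) * T ^ ε * ((T + (N : ℝ) ^ 2) * (N : ℝ) ^ 2) := h3
          _ ≤ C₂ * 1 ^ (2 * 2) * T ^ ε * (13 * Q) :=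
              mul_le_mul_of_nonneg_left h4 (by positivity)
          _ = 13 * C₂ * T ^ ε * Q := by ring
      have h6 : (W.card : ℝ) ≤ 13 * C₂ * T ^ ε * (Q / V ^ 4) := by
        rw [mul_div_assoc', le_div_iff₀ (by positivity)]
        exact h5
      refine h6.trans ?_
      have h7 : 13 * C₂ * T ^ ε ≤ (C₁ + 13 * C₂) * T ^ ε :=
        mul_le_mul_of_nonneg_right (by linarith) hTe.le
      have h8 : 0 ≤ (N : ℝ) ^ 2 / V ^ 2 := by positivity
      exact mul_le_mul h7 (by linarith) (by positivity) (by positivity)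
    · constructor
      · intro t ht
        obtain ⟨s, hs, rfl⟩ := Finset.mem_image.1 ht
        have := hW s hs
        constructor <;> linarith
      · intro t ht t' ht' hne
        obtain ⟨s, hs, rfl⟩ := Finset.mem_image.1 ht
        obtain ⟨s', hs', rfl⟩ := Finset.mem_image.1 ht'
        have h4 := hsep s hs s' hs' (fun h => hne (by rw [h]))
        have h5 : s - (T₀ - T) - (s' - (T₀ - T)) = s - s' := by ring
        rw [h5, Real.rpow_zero]
        exact h4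
    · intro n hn
      have h4 := FIN_norm N a (T₀ - T) n hn
      rw [h4]
      exact ha n hn
    · intro t ht
      obtain ⟨s, hs, rfl⟩ := Finset.mem_image.1 ht
      rw [FIN_shift]
      exact hlarge s hs

end Pool.Agent.LW
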